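import Pool.Agent.H348.GB.Close

/-!
# Flats of cubulated groups without `ℤ²` branch above linearly many segments (Morse–Hedlund)

The 1-skeleta of CAT(0) cube complexes are the median graphs (Chepoi, Gerasimov, Roller).  A
combinatorial flat is an isometric embedding `f` of the square grid into the 1-skeleton.  If `G` acts
geometrically on a CAT(0) cube complex, then combinatorial flats exist if and only if `G` is not
hyperbolic.

A horizontal segment of the flat `f` is called branching (with margin `N`) if a translate of `f` by
an element of `G` agrees with `f` on the rectangle of height `N` below the segment, also at distance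
up to `N` to the left and to the right of it, but at no vertex of the row above.  Theorem: if `G` has
no subgroup `ℤ²` and acts freely on the vertices (for instance if `G` is torsion-free) then for all
`n`, `N` the flat `f` has at least `n + 1` branching segments of length `n` with margin `N` which are
pairwise inequivalent under `G`.  If there are vertex stabilisers but all of them are of order
less than `2 ^ s`, there are more than `n / s` such segments.  So a flat closes up, i.e. forces
`ℤ²`, if for one `n` and one `N` it has at most `n / s` orbits of branching segments.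

Idea of the proof.  Without `ℤ²` two limit flats of `f` agree exactly below a row; such rows form a
nonempty closed family which is invariant under `G` and under shifts.  Count the windows of length
`n` of the family up to `G`, each with the weight `s` minus the binary logarithm of the order of its
pointwise stabiliser.  If there are at most `n / s` windows, then this mass does not grow from `k` to
`k + 1` for some `k < n`, and so windows of length `k` determine the rows of the family, with
their stabilisers; so there are finitely many rows up to `G`, and all of them are periodic.  Let `T`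
translate a row of a limit flat `h`, by `s₀`.  The half-planes `T ^ m • h (· - m s₀, ·)` above the
row either coincide for two values of `m`, and then `T` and an element which translates a long piece
of the half-plane vertically give `ℤ²`; or they separate at infinitely many heights.  The rows at
these heights are branching and periodic under powers of `T`.  As there are finitely many orbits of
them, an element `g` moves one of them to another one, and moves the wall above the first one to
the wall above the second one; `g` commutes with a power of `T`, and they generate `ℤ²`.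
-/

set_option autoImplicit false

namespace Pool.Agent.Results.MP_140312_al.BranchingSegments

open Pool.Agent.W5h69.CR Pool.Agent.H348.GB

/-- The flat `f` branches above its horizontal segment of length `n` which starts at `a`, with
margin `N`: some translate of `f` by an element of `G`, moved by a translation of the grid, agrees
with `f` on the rectangle `a + [-N, n + N] × [-N, 0]` and at no vertex of the next row
`a + [-N, n + N] × {1}`. -/
def BranchesAbove (G : Type*) {V : Type*} [Group G] [MulAction G V] (f : ℤ × ℤ → V) (n N : ℕ)
    (a : ℤ × ℤ) : Prop :=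
  ∃ (g : G) (b : ℤ × ℤ),
    (∀ i j : ℤ, -N ≤ i → i ≤ n + N → -N ≤ j → j ≤ 0 → g • f (b + (i, j)) = f (a + (i, j))) ∧
    ∀ i : ℤ, -N ≤ i → i ≤ n + N → g • f (b + (i, 1)) ≠ f (a + (i, 1))

/-- Let `Γ` be a locally finite median graph (the 1-skeleton of a CAT(0) cube complex), let `G` act on
it by automorphisms, with finitely many orbits and with vertex stabilisers of order less than
`2 ^ s`, and suppose that `G` has no subgroup isomorphic to `ℤ²`.  Let `f` be a combinatorial flat
and let `n`, `N`, `m` be natural numbers with `s * m ≤ n`.  There are `m + 1` horizontal segments of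
length `n` of `f`, pairwise inequivalent under `G`, above which `f` branches with margin `N`.  (If `G`
acts freely on the vertices, for instance if `G` is torsion-free, we may take `s = 1` and
`m = n`.) -/
theorem result {V : Type*} (Γ : SimpleGraph V) (hΓ : IsMedian Γ)
    (hloc : ∀ v : V, (Γ.neighborSet v).Finite) {G : Type*} [Group G] [MulAction G V]
    (hadj : ∀ (g : G) (v w : V), Γ.Adj v w → Γ.Adj (g • v) (g • w))
    (hstab : ∀ v : V, Finite (MulAction.stabilizer G v))
    (hcc : ∃ K : Set V, K.Finite ∧ ∀ v : V, ∃ g : G, g • v ∈ K)
    (hZ : ¬ ∃ φ : Multiplicative (ℤ × ℤ) →* G, Function.Injective φ)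
    (s : ℕ) (hs : ∀ v : V, Nat.card (MulAction.stabilizer G v) < 2 ^ s)
    (f : ℤ × ℤ → V) (hf : IsFlat Γ f) (n N m : ℕ) (hm : s * m ≤ n) :
    ∃ a : Fin (m + 1) → ℤ × ℤ, (∀ c, BranchesAbove G f n N (a c)) ∧
      ∀ c c' : Fin (m + 1), c ≠ c' → ∀ g : G,
        ∃ i : ℤ, 0 ≤ i ∧ i ≤ n ∧ g • f (a c + (i, 0)) ≠ f (a c' + (i, 0)) := by
  obtain ⟨K, hK, hcov⟩ := hcc
  have hG : Geo Γ G K :=
    ⟨hΓ, hloc, hadj, fun v => Set.toFinite (MulAction.stabilizer G v : Set G), hK, hcov⟩
  have hL := Orb.sys hG hf
  by_contra hcon
  -- there are few windows
  have hfew : ¬ ∃ p : Fin (m + 1) → ℤ → V, (∀ a, p a ∈ Amb (Orb G f) N) ∧ ∀ a b, a ≠ b →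
      ∀ g : G, ∃ i : ℤ, 0 ≤ i ∧ i ≤ n ∧ g • p a i ≠ p b i := by
    rintro ⟨p, hp1, hp2⟩
    apply hcon
    have key : ∀ c, ∃ (a : ℤ × ℤ) (g : G), BranchesAbove G f n N a ∧
        ∀ i : ℤ, 0 ≤ i → i ≤ n → g • f (a + (i, 0)) = p c i := by
      intro c
      obtain ⟨h, hh, k, hk, h0, h1, h2⟩ := hp1 c
      obtain ⟨g, b, hg⟩ := hh (n + N + 1)
      obtain ⟨g', b', hg'⟩ := hk (n + N + 1)
      refine ⟨b, g, ⟨g⁻¹ * g', b', ?_, ?_⟩, ?_⟩
      · intro i j i1 i2 j1 j2
        have e1 := hg (i, j) (by simp only; omega) (by simp only; omega)
        have e2 := hg' (i, j) (by simp only; omega) (by simp only; omega)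
        rw [mul_smul, inv_smul_eq_iff, add_comm b', add_comm b, ← e1, ← e2]
        exact (h1 i j j1 j2).symm
      · intro i i1 i2 he
        have e1 := hg (i, 1) (by simp only; omega) (by simp only; omega)
        have e2 := hg' (i, 1) (by simp only; omega) (by simp only; omega)
        rw [mul_smul, inv_smul_eq_iff, add_comm b', add_comm b, ← e1, ← e2] at he
        exact h2 (row_all hG (hL.flat h hh) (hL.flat k hk) (y := 0) (y' := 1) (by simp)
          (fun x => h1 x 0 (by omega) le_rfl) (x := i) he.symm 0)
      · intro i i1 i2
        have e1 := hg (i, 0) (by simp only; omega) (by simp)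
        rw [add_comm b, ← e1, h0]
    choose a g ha hg using key
    refine ⟨a, ha, fun c c' hcc' γ => ?_⟩
    obtain ⟨i, i1, i2, hi⟩ := hp2 c c' hcc' (g c' * γ * (g c)⁻¹)
    refine ⟨i, i1, i2, fun he => hi ?_⟩
    rw [← hg c i i1 i2, ← hg c' i i1 i2, mul_smul, mul_smul, inv_smul_smul, he]
  obtain ⟨h, hh, k, hk, h1, h2⟩ := up_pair hG hL (Orb.self f) hZ
  have hne : (Amb (Orb G f) N).Nonempty :=
    ⟨fun i => h (i, 0), h, hh, k, hk, fun _ => rfl, fun i j _ hj => h1 i j hj, h2⟩
  obtain ⟨M, c, hc⟩ := finite_rows hG ⟨fun q hq g m => amb_mv hG hL hq g m⟩ hne hs hm hfew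
  exact hZ (close hG hL hne c hc)

end Pool.Agent.Results.MP_140312_al.BranchingSegments
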