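import Pool.Agent.H348.GB.Uniq

/-!
# Facing triples of hyperplanes whose stabilisers are not virtually cyclic

Let `G` act geometrically on a CAT(0) square complex; its 1-skeleton is a median graph without
3-cubes (Chepoi, Gerasimov, Roller).  A combinatorial flat is an isometric embedding `f` of the
square grid into the 1-skeleton; there are such flats if and only if `G` is not hyperbolic.  The
theorem of Sageev and Wise on periodic flats says that `G` is hyperbolic or contains `ℤ²` if the
common stabiliser of any facing triple of hyperplanes (three disjoint hyperplanes none of which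
separates the other two) is virtually cyclic.

We consider only the facing triples which are seen along the rows of a flat, and only long ones.
Suppose that two translates of `f` agree on a rectangle of height `N` below a horizontal segment and
at no vertex of the row above the segment.  The rows `-N, …, 0` of the rectangle and the row above
define `N` hyperplanes below the segment, and two hyperplanes above it (one for each of the two
translates); let `D` be the common stabiliser of the `N + 2` half-spaces above them.  It is
contained in the stabiliser of a facing triple.  Theorem: if `G` has no subgroup `ℤ²` and acts freely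
on the vertices, then for all `n`, `N` the flat `f` has at least `n + 1` horizontal segments of length
`n`, pairwise inequivalent under `G`, above which such a branching happens and the group `D` is not
virtually cyclic (more than `n / s` segments if the vertex stabilisers have order less than
`2 ^ s`).  So Q1 has a positive answer for square complexes if for one `N` the stabilisers `D` for
the rows of the flats are virtually cyclic, or if they are virtually cyclic up to few exceptions.

Idea of the proof.  Let `q` be a bi-infinite row along which two limit flats branch and for which `D`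
is virtually cyclic.  Any other such row `q'` with the same hyperplanes and one common edge with `q`
is equal to `q`: if they separate at a vertex, then `D` contains three elements which move three
pairwise disjoint half-spaces (the ends of `q` and the new end of `q'`) strictly into themselves,
as there are no 3-cubes; two of these elements have a common positive power, which is impossible.
So the rows with virtually cyclic `D` fall into finitely many orbits.  If the remaining rows have at
most `n / s` windows of length `n`, then they also fall into finitely many orbits, by the theorem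
of Morse and Hedlund with stabilisers, and there is `ℤ²` by the closing theorem for finitely many
orbits of branching rows (see `BranchingSegments`).
-/

set_option autoImplicit false

namespace Pool.Agent.Results.MP_140312_al.FacingTriples

open Pool.Agent.W5h69.CR Pool.Agent.H348.GB

/-- The flat `f` branches above its horizontal segment of length `n` which starts at `a`, with
margin `N`, and the common stabiliser of the hyperplanes below and above the branching is not
virtually cyclic: some translate of `f` by an element of `G`, moved by a translation of the grid,
agrees with `f` on the rectangle `a + [-N, n + N] × [-N, 0]` and at no vertex of the next row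
`a + [-N, n + N] × {1}`, and the group of the elements of `G` which preserve the half-spaces above
the rows `-N, …, 0` of `f (a + ·)` and above the row `0` of the translate is not virtually
cyclic. -/
def Branches {V : Type*} (Γ : SimpleGraph V) (G : Type*) [Group G] [MulAction G V]
    (f : ℤ × ℤ → V) (n N : ℕ) (a : ℤ × ℤ) : Prop :=
  ∃ (g : G) (b : ℤ × ℤ),
    (∀ i j : ℤ, -N ≤ i → i ≤ n + N → -N ≤ j → j ≤ 0 → g • f (b + (i, j)) = f (a + (i, j))) ∧
    (∀ i : ℤ, -N ≤ i → i ≤ n + N → g • f (b + (i, 1)) ≠ f (a + (i, 1))) ∧
    ¬ VirtuallyCyclic (tripod G Γ (fun z => f (a + z)) (fun z => g • f (b + z)) N)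

/-- Let `Γ` be a locally finite median graph without 3-cubes (the 1-skeleton of a CAT(0) square
complex), let `G` act on it by automorphisms, with finitely many orbits and with vertex stabilisers
of order less than `2 ^ s`, and suppose that `G` has no subgroup isomorphic to `ℤ²`.  Let `f` be a
combinatorial flat and let `n`, `N`, `m` be natural numbers with `s * m ≤ n`.  There are `m + 1`
horizontal segments of length `n` of `f`, pairwise inequivalent under `G`, above which `f` branches
with margin `N` and such that the stabiliser of the hyperplanes below and above the branching is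
not virtually cyclic. -/
theorem result {V : Type*} (Γ : SimpleGraph V) (hΓ : IsMedian Γ) (h3 : ¬ HasCube Γ)
    (hloc : ∀ v : V, (Γ.neighborSet v).Finite) {G : Type*} [Group G] [MulAction G V]
    (hadj : ∀ (g : G) (v w : V), Γ.Adj v w → Γ.Adj (g • v) (g • w))
    (hstab : ∀ v : V, Finite (MulAction.stabilizer G v))
    (hcc : ∃ K : Set V, K.Finite ∧ ∀ v : V, ∃ g : G, g • v ∈ K)
    (hZ : ¬ ∃ φ : Multiplicative (ℤ × ℤ) →* G, Function.Injective φ)
    (s : ℕ) (hs : ∀ v : V, Nat.card (MulAction.stabilizer G v) < 2 ^ s)
    (f : ℤ × ℤ → V) (hf : IsFlat Γ f) (n N m : ℕ) (hm : s * m ≤ n) :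
    ∃ a : Fin (m + 1) → ℤ × ℤ, (∀ c, Branches Γ G f n N (a c)) ∧
      ∀ c c' : Fin (m + 1), c ≠ c' → ∀ g : G,
        ∃ i : ℤ, 0 ≤ i ∧ i ≤ n ∧ g • f (a c + (i, 0)) ≠ f (a c' + (i, 0)) := by
  obtain ⟨K, hK, hcov⟩ := hcc
  have hG : Geo Γ G K :=
    ⟨hΓ, hloc, hadj, fun v => Set.toFinite (MulAction.stabilizer G v : Set G), hK, hcov⟩
  have hL := Orb.sys hG hf
  by_contra hcon
  -- there are few windows
  have hfew : ¬ ∃ p : Fin (m + 1) → ℤ → V, (∀ a, p a ∈ AmbN G Γ (Orb G f) N) ∧ ∀ a b, a ≠ b →
      ∀ g : G, ∃ i : ℤ, 0 ≤ i ∧ i ≤ n ∧ g • p a i ≠ p b i := by
    rintro ⟨p, hp1, hp2⟩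
    apply hcon
    have key : ∀ c, ∃ (a : ℤ × ℤ) (g : G), Branches Γ G f n N a ∧
        ∀ i : ℤ, 0 ≤ i → i ≤ n → g • f (a + (i, 0)) = p c i := by
      intro c
      obtain ⟨h, hh, k, hk, h0, h1, h2, h3⟩ := hp1 c
      obtain ⟨g, b, hg⟩ := hh (n + N + 1)
      obtain ⟨g', b', hg'⟩ := hk (n + N + 1)
      refine ⟨b, g, ⟨g⁻¹ * g', b', ?_, ?_, ?_⟩, ?_⟩
      · intro i j i1 i2 j1 j2
        have e1 := hg (i, j) (by simp only; omega) (by simp only; omega)
        have e2 := hg' (i, j) (by simp only; omega) (by simp only; omega)
        rw [mul_smul, inv_smul_eq_iff, add_comm b', add_comm b, ← e1, ← e2]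
        exact (h1 i j j1 j2).symm
      · intro i i1 i2 he
        have e1 := hg (i, 1) (by simp only; omega) (by simp only; omega)
        have e2 := hg' (i, 1) (by simp only; omega) (by simp only; omega)
        rw [mul_smul, inv_smul_eq_iff, add_comm b', add_comm b, ← e1, ← e2] at he
        exact h2 (row_all hG (hL.flat h hh) (hL.flat k hk) (y := 0) (y' := 1) (by simp)
          (fun x => h1 x 0 (by omega) le_rfl) (x := i) he.symm 0)
      · intro hvc
        apply h3
        have f1 : IsFlat Γ (fun z => f (b + z)) := by
          have := hf.add b
          simpa only [add_comm] using this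
        have f2 : IsFlat Γ (fun z => (g⁻¹ * g') • f (b' + z)) := by
          have := flat_mv hG hf (g⁻¹ * g') b'
          simpa only [add_comm] using this
        have hE := elem_mv' hG f1 f2 g 0 (elem_of_vc hvc)
        have e : tripod G Γ (fun z => g • f (b + (z + (0, 0))))
            (fun z => g • (g⁻¹ * g') • f (b' + (z + (0, 0)))) N = tripod G Γ h k N := by
          refine tripod_col (fun j j1 j2 => ?_) ?_ ?_
          · simp only [Prod.mk_add_mk, add_zero]
            rw [hg (0, j) (by simp) (by simp only; omega), add_comm b]
          · simp only [Prod.mk_add_mk, add_zero]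
            rw [hg' (0, 0) (by simp) (by simp), mul_smul, smul_inv_smul, add_comm b']
          · simp only [Prod.mk_add_mk, add_zero]
            rw [hg' (0, 1) (by simp) (by simp), mul_smul, smul_inv_smul, add_comm b']
        rw [← e]
        exact hE
      · intro i i1 i2
        have e1 := hg (i, 0) (by simp only; omega) (by simp)
        rw [add_comm b, ← e1, h0]
    choose a g ha hg using key
    refine ⟨a, ha, fun c c' hcc' γ => ?_⟩
    obtain ⟨i, i1, i2, hi⟩ := hp2 c c' hcc' (g c' * γ * (g c)⁻¹)
    refine ⟨i, i1, i2, fun he => hi ?_⟩
    rw [← hg c i i1 i2, ← hg c' i i1 i2, mul_smul, mul_smul, inv_smul_smul, he]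
  obtain ⟨h, hh, k, hk, h1, h2⟩ := up_pair hG hL (Orb.self f) hZ
  have hne : (Amb (Orb G f) N).Nonempty :=
    ⟨fun i => h (i, 0), h, hh, k, hk, fun _ => rfl, fun i j _ hj => h1 i j hj, h2⟩
  by_cases hne' : (AmbN G Γ (Orb G f) N).Nonempty
  · obtain ⟨M, c, hc⟩ := finite_rows hG (ambN_rows hG hL N) hne' hs hm hfew
    exact hZ (close_tri hG h3 hL hne c hc)
  · rw [Set.not_nonempty_iff_eq_empty] at hne'
    have hno : ∀ q : AmbN G Γ (Orb G f) N, False := fun q =>
      Set.eq_empty_iff_forall_notMem.1 hne' q.1 q.2
    exact hZ (close_tri hG h3 hL hne (M := 0) (fun q => (hno q).elim) (fun q => (hno q).elim))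

end Pool.Agent.Results.MP_140312_al.FacingTriples
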