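import Pool.Agent.H348.GB.Tripods
import Pool.Graph.R_pool_sql_team_seeded_9f66d723.W8h56.SW.Hyp

/-!
# Flats which branch in both directions, and products of two infinite tripods

Let `G` act geometrically on a CAT(0) cube complex `X`, whose 1-skeleton is a median graph (Chepoi,
Gerasimov, Roller).  A combinatorial flat is an isometric embedding of the square grid `ℤ × ℤ` (with
the metric `|x - x'| + |y - y'|`) into the 1-skeleton; its limit flats are the limits of its
translates.

Theorem: if `G` has no subgroup `ℤ²`, then `G` is hyperbolic, or there are combinatorial flats and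
every combinatorial flat `f` has four limit flats `F s t`, `s, t ∈ {0, 1}` (up to a reflection of
the grid), such that `F s 0`, `F s 1` branch exactly along a horizontal line and `F 0 t`, `F 1 t`
branch exactly along a vertical line, for all `s`, `t`.  If `X` is a square complex then the union of
the four flats is an isometrically embedded product of two infinite tripods.  So Q1 has a positive
answer for the CAT(0) square complexes which contain no product of two infinite tripods, and in
particular for those whose vertex links contain no complete bipartite graph `K_{3,3}`.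

For square complexes it was known that the flats are isolated, and that there is `ℤ²`, if the
complex contains no product of a tripod with a line (Hruska, Wise).

Idea of the proof.  There are pairs of limit flats which branch exactly along a horizontal line.
Consider the horizontal lines along which two limit flats branch.  If there is `N` such that the
picture of such a pair on the ball of radius `N` around a vertex of the line determines the
line, then there are finitely many orbits of lines of branching and one gets `ℤ²` by the closing
theorem for finitely many orbits (see `BranchingSegments`).  Otherwise, for every `N`, two such pairs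
agree on a ball of radius `N` around a vertex of the line, and the lines separate somewhere on one
side.  In a median graph the agreement spreads from the line and a column to the rectangle spanned
by them.  Recentering at the vertex where the lines separate and passing to a limit we obtain the
four flats.  In the absence of 3-cubes the half-spaces defined by the two edges of branching are
disjoint, and the distances between the vertices of the four flats are those of the product.
-/

set_option autoImplicit false

namespace Pool.Agent.Results.MP_140312_al.ProductOfTripods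

open Pool.Agent.W5h69.CR Pool.Agent.H348.GB Pool.Agent.W8h56.SW

/-- Let `Γ` be a locally finite median graph (the 1-skeleton of a CAT(0) cube complex), let `G` act on
it by automorphisms, with finite vertex stabilisers and finitely many orbits, and suppose that `G` has
no subgroup isomorphic to `ℤ²`.

* The geodesic triangles of `Γ` are uniformly slim (so `G` is hyperbolic) or there are
  combinatorial flats.
* For every combinatorial flat `f` there are four flats `F s t` which branch in both directions and
  which are limit flats of `f`, or limit flats of `f` composed with the reflection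
  `(x, y) ↦ (-x, y)`; if `Γ` contains no 3-cube then their union is the image of an isometric
  embedding `Φ` of the product of two infinite tripods (`F s t` is the flat of the product
  spanned by the line which consists of the legs `0` and `1 + s` in the first factor and the line
  which consists of the legs `0` and `1 + t` in the second factor).
* If `Γ` contains no 3-cube and no link of a vertex contains the complete bipartite graph `K_{3,3}`
  then the geodesic triangles of `Γ` are uniformly slim. -/
theorem result {V : Type*} (Γ : SimpleGraph V) (hΓ : IsMedian Γ)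
    (hloc : ∀ v : V, (Γ.neighborSet v).Finite) {G : Type*} [Group G] [MulAction G V]
    (hadj : ∀ (g : G) (v w : V), Γ.Adj v w → Γ.Adj (g • v) (g • w))
    (hstab : ∀ v : V, Finite (MulAction.stabilizer G v))
    (hcc : ∃ K : Set V, K.Finite ∧ ∀ v : V, ∃ g : G, g • v ∈ K)
    (hZ : ¬ ∃ φ : Multiplicative (ℤ × ℤ) →* G, Function.Injective φ) :
    ((∃ δ : ℕ, SlimTriangles Γ δ) ∨ ∃ f : ℤ × ℤ → V, IsFlat Γ f) ∧
    (∀ f : ℤ × ℤ → V, IsFlat Γ f →
      ∃ (ε : ℤ) (F : Bool → Bool → ℤ × ℤ → V), (ε = 1 ∨ ε = -1) ∧ Quad Γ F ∧
        (∀ s t : Bool, (fun z : ℤ × ℤ => F s t (ε * z.1, z.2)) ∈ Orb G f) ∧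
        (¬ HasCube Γ → ∃ Φ : (Fin 3 × ℕ) × (Fin 3 × ℕ) → V, IsTripodProduct Γ Φ ∧
          ∀ (s t : Bool) (x y : ℤ), Φ (leg s x, leg t y) = F s t (x, y))) ∧
    (¬ HasCube Γ → ¬ LinkK33 Γ → ∃ δ : ℕ, SlimTriangles Γ δ) := by
  obtain ⟨K, hK, hcov⟩ := hcc
  have hG : Geo Γ G K :=
    ⟨hΓ, hloc, hadj, fun v => Set.toFinite (MulAction.stabilizer G v : Set G), hK, hcov⟩
  have h1 : (∃ δ : ℕ, SlimTriangles Γ δ) ∨ ∃ f : ℤ × ℤ → V, IsFlat Γ f := by
    by_cases h : ∃ f : ℤ × ℤ → V, IsFlat Γ f
    · exact Or.inr h
    · exact Or.inl (hyp_of_noFlat hG h)
  have h2 : ∀ f : ℤ × ℤ → V, IsFlat Γ f →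
      ∃ (ε : ℤ) (F : Bool → Bool → ℤ × ℤ → V), (ε = 1 ∨ ε = -1) ∧ Quad Γ F ∧
        (∀ s t : Bool, (fun z : ℤ × ℤ => F s t (ε * z.1, z.2)) ∈ Orb G f) ∧
        (¬ HasCube Γ → ∃ Φ : (Fin 3 × ℕ) × (Fin 3 × ℕ) → V, IsTripodProduct Γ Φ ∧
          ∀ (s t : Bool) (x y : ℤ), Φ (leg s x, leg t y) = F s t (x, y)) := by
    intro f hf
    obtain ⟨F, hF, hL⟩ := quad hG (Orb.sys hG hf) (Orb.self f) hZ
    have h3 := fun hno : ¬ HasCube Γ => hF.tripods hΓ hno
    rcases hL with hL | hL
    · exact ⟨1, F, Or.inl rfl, hF, fun s t => by simpa using hL s t, h3⟩
    · refine ⟨-1, F, Or.inr rfl, hF, fun s t => ?_, h3⟩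
      have h4 : (fun z : ℤ × ℤ => F s t (-z.1, z.2)) ∈ Orb G f := hL s t
      simpa only [neg_one_mul] using h4
  refine ⟨h1, h2, fun hno hk => ?_⟩
  rcases h1 with h | ⟨f, hf⟩
  · exact h
  · obtain ⟨ε, F, -, -, -, h3⟩ := h2 f hf
    obtain ⟨Φ, hΦ, -⟩ := h3 hno
    exact absurd hΦ.k33 hk

end Pool.Agent.Results.MP_140312_al.ProductOfTripods
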