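import Pool.Agent.H348.VH.Main
import Pool.Graph.R_pool_sql_team_seeded_9f66d723.W8h56.SW.Hyp

/-!
# VH complexes of small excess

Let `G` act on a VH complex: a CAT(0) square complex whose hyperplanes are divided into two
invariant classes such that crossing hyperplanes have different classes (Wise).  Its 1-skeleton
embeds equivariantly and isometrically into the product of two trees `T₁`, `T₂`, the dual trees of
the two classes.  The universal covers of the squared graphs of free groups (amalgams `A *_C B` and
HNN extensions `A *_C` of free groups which are given by immersions of graphs, and the like) are of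
this kind: `T₁` is the Bass-Serre tree and the trees `p₁ ⁻¹' {a}` carry the vertex groups.  The
flat closing problem is open for these complexes.

For a vertex `a` of `T₁` consider the horizontal edges (those which are mapped to edges of `T₁`) which
start in the component `p₁ ⁻¹' {a}`.  If `n(e)` is the number of squares which contain the edge `e`
then we call the sum of `n(e) - 2` over the orbits of these edges with `n(e) ≥ 2` the excess of `a`.
If the strips of squares between the components have no dead ends, then the excess is
`2 Σ (rank(G_e) - 1)`, where the sum runs over the orbits under `G_a` of the edges `e` of `T₁` at `a`.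

Theorem: suppose that `G` is torsion-free, acts geometrically on the VH complex and has no subgroup
`ℤ²`.  Let `f` be a flat whose rows are mapped to vertices of `T₁`, so that it defines a geodesic line
in `T₁`.  For all `N` there is a vertex `a` of this line with excess at least `6` such that the next
`N` vertices of the line below `a` have excess at least `4`.  Hence `G` is hyperbolic if, for some
`N`, each geodesic path `α 0, …, α N` in `T₁` has excess at most `5` at `α 0` or excess at most `3`
at one of the vertices `α 1, …, α N`.  This covers, in particular, the amalgams `A *_C B` of VH type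
with `rank C ≤ 3` and the HNN extensions `A *_C` of VH type with `rank C ≤ 2` (without dead ends).
In general it is enough that all geodesic paths of length `N` pass vertices with excess at most
`3`.

Idea of the proof.  By the theorem on facing triples (`FacingTriples`) there are limit flats of `f`
which branch above the row `0`, agree on the rows `-N - 1, …, 0`, and for which the common
stabiliser `D` of the half-spaces above these rows is not virtually cyclic.  The group `D` fixes a
geodesic path `a(-N-1), …, a(0), a(1)` in `T₁` and one more neighbour `a'(1)` of `a(0)`.  So the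
excess at `a(0)` is at least `6`, and the excess at `a(j)` is at least `4`, `-N ≤ j < 0`, by the
following lemma: if a subgroup `D` of the vertex group `G_a` which is not cyclic up to powers fixes
`m` neighbours of `a` then the excess of `a` is at least `2 m`.  This lemma is a relative of the
strengthened Hanna Neumann conjecture (Friedman, Mineyev), and it is proved by means of an order
on `G_a`, in the manner of Mineyev and Dicks: order the edges of `p₁ ⁻¹' {a}` invariantly (Magnus),
call an edge of a strip a bridge if it is larger than all other edges on some line through it which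
is not periodic; count the bridges of the strips and compare them with the minimal
subtree of `D`.
-/

set_option autoImplicit false

namespace Pool.Agent.Results.MP_140312_al.SmallExcess

open Pool.Agent.W5h69.CR Pool.Agent.H348.VH Pool.Agent.W8h56.SW

/-- Let the torsion-free group `G` act on the locally finite median graph `Γ` by automorphisms, with
finitely many orbits and finite vertex stabilisers, and let `p₁`, `p₂` embed `Γ` equivariantly and
isometrically into the product of the trees `T₁`, `T₂`.  Suppose that `G` has no subgroup isomorphic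
to `ℤ²`.

* For every combinatorial flat `f` whose rows are mapped by `p₁` to vertices of `T₁` and for every
  `N` there is `y` such that the excess at the vertex `p₁ (f (0, y))` of `T₁` is not at most `5` and
  the excess at the vertices `p₁ (f (0, y - j))`, `0 < j ≤ N`, is not at most `3`.
* If for some `N` every geodesic path `α 0, …, α N` in `T₁` has excess at most `5` at `α 0` or
  excess at most `3` at some `α j`, `0 < j ≤ N`, then `Γ` is hyperbolic. -/
theorem result {V A B : Type*} (Γ : SimpleGraph V) (T₁ : SimpleGraph A) (T₂ : SimpleGraph B)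
    (hΓ : IsMedian Γ) (hloc : ∀ v : V, (Γ.neighborSet v).Finite)
    {G : Type*} [Group G] [MulAction G V] [MulAction G A] [MulAction G B]
    (hadj : ∀ (g : G) (v w : V), Γ.Adj v w → Γ.Adj (g • v) (g • w))
    (hstab : ∀ v : V, Finite (MulAction.stabilizer G v))
    (hcc : ∃ K : Set V, K.Finite ∧ ∀ v : V, ∃ g : G, g • v ∈ K)
    (p₁ : V → A) (p₂ : V → B) (hVH : IsVH Γ T₁ T₂ G p₁ p₂)
    (htf : ∀ g : G, g ≠ 1 → ∀ n : ℕ, 0 < n → g ^ n ≠ 1)
    (hZ : ¬ ∃ φ : Multiplicative (ℤ × ℤ) →* G, Function.Injective φ) :
    (∀ f : ℤ × ℤ → V, IsFlat Γ f → (∀ x y : ℤ, p₁ (f (x, y)) = p₁ (f (0, y))) → ∀ N : ℕ,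
      ∃ y : ℤ, ¬ ExcessLE Γ G p₁ (p₁ (f (0, y))) 5 ∧
        ∀ j : ℤ, 0 < j → j ≤ N → ¬ ExcessLE Γ G p₁ (p₁ (f (0, y - j))) 3) ∧
    ((∃ N : ℕ, ∀ α : ℕ → A, (∀ i j : ℕ, i ≤ N → j ≤ N →
        (T₁.dist (α i) (α j) : ℤ) = |(i : ℤ) - j|) →
        ExcessLE Γ G p₁ (α 0) 5 ∨ ∃ j, 0 < j ∧ j ≤ N ∧ ExcessLE Γ G p₁ (α j) 3) →
      ∃ δ : ℕ, SlimTriangles Γ δ) := by
  obtain ⟨K, hK, hcov⟩ := hcc
  have hG : Geo Γ G K :=
    ⟨hΓ, hloc, hadj, fun v => Set.toFinite (MulAction.stabilizer G v : Set G), hK, hcov⟩
  have hfree : ∀ (g : G) (v : V), g • v = v → g = 1 := by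
    intro g v hg
    by_contra hne
    have : Finite (MulAction.stabilizer G v) := hstab v
    obtain ⟨n, hn, h1⟩ := (isOfFinOrder_of_finite
      (⟨g, hg⟩ : MulAction.stabilizer G v)).exists_pow_eq_one
    have h2 := congrArg Subtype.val h1
    exact htf g hne n hn (by simpa using h2)
  have htf2 : ∀ g : G, g * g = 1 → g = 1 := by
    intro g hg
    by_contra hne
    exact htf g hne 2 (by norm_num) (by rw [pow_two, hg])
  have h1 : ∀ f : ℤ × ℤ → V, IsFlat Γ f → (∀ x y : ℤ, p₁ (f (x, y)) = p₁ (f (0, y))) →
      ∀ N : ℕ, ∃ y : ℤ, ¬ ExcessLE Γ G p₁ (p₁ (f (0, y))) 5 ∧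
        ∀ j : ℤ, 0 < j → j ≤ N → ¬ ExcessLE Γ G p₁ (p₁ (f (0, y - j))) 3 :=
    fun f hf hr N => main hVH hG hfree htf2 hZ hf hr N
  refine ⟨h1, ?_⟩
  rintro ⟨N, hN⟩
  have key : ∀ f : ℤ × ℤ → V, IsFlat Γ f → ¬ ∀ x y : ℤ, p₁ (f (x, y)) = p₁ (f (0, y)) := by
    intro f hf hr
    obtain ⟨y, y1, y2⟩ := h1 f hf hr N
    rcases hN (fun i => p₁ (f (0, y - i))) (fun i j _ _ => by
      rw [hVH.dist_col hΓ.1 hf hr, show y - (i : ℤ) - (y - j) = -((i : ℤ) - j) by ring,
        abs_neg]) with h2 | ⟨j, j1, j2, h2⟩
    · apply y1
      simpa using h2
    · exact y2 j (by exact_mod_cast j1) (by exact_mod_cast j2) h2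
  refine hyp_of_noFlat hG ?_
  rintro ⟨f, hf⟩
  rcases hVH.flat_type hΓ.1 hf with hr | hr
  · exact key f hf hr
  · exact key _ hf.swap fun x y => hr y x

end Pool.Agent.Results.MP_140312_al.SmallExcess
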